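import Pool.Agent.H34.VC.TwoLev
import Pool.Agent.H31.LB.ESet
import Pool.Agent.H24.Ts
import Pool.Agent.H64.VC.Final
import Pool.Agent.H40.VC.Numbers
import Pool.Agent.H17.FM.Final

set_option autoImplicit false

/-!
# All but finitely many lattices of bounded breadth
-/

namespace Pool.Agent.H44.VC

open Finset Pool.Agent.H24.Sh

universe u

lemma S_id {L : Type*} [Fintype L] : S (fun x : L => x) = 0 := by
  classical
  unfold S
  refine Finset.sum_eq_zero fun x _ => ?_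
  have h : fib (fun x : L => x) x = 1 := by
    unfold fib
    have : (univ.filter fun ω' : L => ω' = x) = {x} := by
      ext y; simp
    rw [this]
    simp
  rw [h, Real.log_one]

open Classical in
theorem core {L : Type*} [Lattice L] [BoundedOrder L] [Fintype L] (M : Finset L)
    (hM : ∀ a : L, SupIrred a → ∃ m ∈ M, a ≤ m)
    (g g1 : L → L) (h01 : ∀ m ∈ M, m ≤ g m) (h12 : ∀ m ∈ M, g m ≤ g1 m)
    (e e1 : ℝ) (he : 0 ≤ e) (he1 : 0 ≤ e1) (hb1 : 0 ≤ 1 / 2 - e - e1)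
    (hu : ∀ m ∈ M, (1 / 2 - e) * (Fintype.card L : ℝ) ≤ (#{y : L | g m ≤ y} : ℝ))
    (hu1 : ∀ m ∈ M, (1 / 2 - e - e1) * (Fintype.card L : ℝ) ≤ (#{y : L | g1 m ≤ y} : ℝ))
    (K K1 : ℝ)
    (hK : ((univ.image (fun x => M.filter (fun m => g m ≤ x))).card : ℝ) ≤ K)
    (hK1 : ((univ.image (fun x => M.filter (fun m => g1 m ≤ x))).card : ℝ) ≤ K1)
    (hF : ∀ x x' : L, (∀ m ∈ M, (g m ≤ x ↔ g m ≤ x')) → ∀ m ∈ M, (g1 m ≤ x ↔ g1 m ≤ x'))
    (hN : 2 ≤ Fintype.card L)
    (heta : 32 * (e + Real.log K / (2 * Real.log (Fintype.card L))) ≤ 1) :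
    ∃ E : Finset L, (#E : ℝ) ≤
      16 * (e + Real.log K / (2 * Real.log (Fintype.card L))) * Fintype.card L ∧ 0 < #E ∧
      (1 / 4) * (Real.log (Fintype.card L) - Real.log E.card) ≤
      Real.log 2 + 2 * e * Real.log (Fintype.card L) + 2 * e1 * Real.log K + Real.log K1 := by
  have : Nonempty L := ⟨⊥⟩
  set N : ℝ := (Fintype.card L : ℝ) with hNdef
  have hNpos : 0 < N := by rw [hNdef]; exact_mod_cast Fintype.card_pos
  set T : L → Finset L := fun x => M.filter (fun m => g m ≤ x) with hT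
  set T1 : L → Finset L := fun x => M.filter (fun m => g1 m ≤ x) with hT1
  set j : Fin M.card → L := fun i => (M.equivFin.symm i : L) with hj
  have hjM : ∀ i, j i ∈ M := fun i => (M.equivFin.symm i).2
  have hjs : ∀ m ∈ M, ∃ i, j i = m := fun m hm => ⟨M.equivFin ⟨m, hm⟩, by simp [hj]⟩
  have hinj : ∀ x y : L, (∀ i, x ⊓ j i = y ⊓ j i) → x = y := by
    intro x y hxy
    refine Pool.Agent.H17.FM.eq_of_supIrred_le fun a ha => ?_
    obtain ⟨m, hm, ham⟩ := hM a ha
    obtain ⟨i, hi⟩ := hjs m hm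
    have e1 : a ≤ x ↔ a ≤ x ⊓ m := by simp [ham]
    have e2 : a ≤ y ↔ a ≤ y ⊓ m := by simp [ham]
    have h3 := hxy i
    rw [hi] at h3
    rw [e1, e2, h3]
  have hTmem : ∀ m x, m ∈ T x ↔ m ∈ M ∧ g m ≤ x := fun m x => by simp [hT]
  have hT1mem : ∀ m x, m ∈ T1 x ↔ m ∈ M ∧ g1 m ≤ x := fun m x => by simp [hT1]
  have hTinf : ∀ x y, T (x ⊓ y) = T x ∩ T y := by
    intro x y
    ext m
    rw [Finset.mem_inter, hTmem, hTmem, hTmem, le_inf_iff]
    tauto
  have hT1inf : ∀ x y, T1 (x ⊓ y) = T1 x ∩ T1 y := by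
    intro x y
    ext m
    rw [Finset.mem_inter, hT1mem, hT1mem, hT1mem, le_inf_iff]
    tauto
  have hTT1 : ∀ z z', T z = T z' → T1 z = T1 z' := by
    intro z z' h
    have h2 := hF z z' (fun m hm => by
      have h3 : m ∈ T z ↔ m ∈ T z' := by rw [h]
      rw [hTmem, hTmem] at h3
      exact ⟨fun h4 => (h3.1 ⟨hm, h4⟩).2, fun h4 => (h3.2 ⟨hm, h4⟩).2⟩)
    ext m
    rw [hT1mem, hT1mem]
    exact ⟨fun h4 => ⟨h4.1, (h2 m h4.1).1 h4.2⟩, fun h4 => ⟨h4.1, (h2 m h4.1).2 h4.2⟩⟩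
  have himg : ∀ i1 i2 : DecidableEq (Finset L), @Finset.image L (Finset L) i1 T univ =
      @Finset.image L (Finset L) i2 T univ := fun i1 i2 => by rw [Subsingleton.elim i1 i2]
  -- the set `E`
  obtain ⟨E, hE1, hE2⟩ := Pool.Agent.H31.LB.eset j (fun i => g (j i)) (fun i => h01 _ (hjM i)) hinj T
    (fun x y h i => by
      have h3 : j i ∈ T x ↔ j i ∈ T y := by rw [h]
      rw [hTmem, hTmem] at h3
      exact ⟨fun h4 => (h3.1 ⟨hjM i, h4⟩).2, fun h4 => (h3.2 ⟨hjM i, h4⟩).2⟩)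
    K (by rw [himg _ (fun a b => a.decidableEq b)]; exact hK) e he hN (fun i => hu _ (hjM i)) heta
  have hEpos : 0 < #E := by
    rw [Finset.card_pos, Finset.nonempty_iff_ne_empty]
    intro h0
    rw [h0] at hE2
    simp only [Finset.notMem_empty, Finset.filter_false, Finset.card_empty, Nat.cast_zero] at hE2
    have : 0 < N ^ 2 / 4 := by positivity
    linarith
  refine ⟨E, hE1, hEpos, ?_⟩
  have hA := two_step (fun x y : L => x ⊓ y) (fun x : L => x) T (fun i x => x ⊓ j i)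
    (fun s => univ.filter (fun i => j i ∈ s)) (1 / 2 - e) (by linarith)
    (fun z z' h => by rw [show z = z' from h])
    (fun z z' _ h => hinj z z' h)
    (fun x x' y y' h h' => by
      show T (x ⊓ y) = T (x' ⊓ y')
      rw [hTinf, hTinf, h, h'])
    (fun x x' y y' h h' hm i hi => by
      have hm' : x ⊓ y = x' ⊓ y' := hm
      have h5 : j i ∈ T y := (Finset.mem_filter.1 hi).2
      have h6 : j i ∈ T y' := by rw [← h']; exact h5
      have h7 : j i ≤ y := (h01 _ (hjM i)).trans ((hTmem _ _).1 h5).2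
      have h8 : j i ≤ y' := (h01 _ (hjM i)).trans ((hTmem _ _).1 h6).2
      have h9 : x ⊓ j i = x ⊓ y ⊓ j i := by rw [inf_assoc, inf_eq_right.2 h7]
      have h10 : x' ⊓ j i = x' ⊓ y' ⊓ j i := by rw [inf_assoc, inf_eq_right.2 h8]
      show x ⊓ j i = x' ⊓ j i
      rw [h9, h10, hm'])
    (fun x x' y y' h h' hm i hi => by
      have hm' : x ⊓ y = x' ⊓ y' := hm
      have h5 : j i ∈ T x := (Finset.mem_filter.1 hi).2
      have h6 : j i ∈ T x' := by rw [← h]; exact h5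
      have h7 : j i ≤ x := (h01 _ (hjM i)).trans ((hTmem _ _).1 h5).2
      have h8 : j i ≤ x' := (h01 _ (hjM i)).trans ((hTmem _ _).1 h6).2
      have h9 : y ⊓ j i = x ⊓ y ⊓ j i := by rw [inf_right_comm, inf_eq_right.2 h7, inf_comm]
      have h10 : y' ⊓ j i = x' ⊓ y' ⊓ j i := by rw [inf_right_comm, inf_eq_right.2 h8, inf_comm]
      show y ⊓ j i = y' ⊓ j i
      rw [h9, h10, hm'])
    (fun i => by
      have h5 : (univ.filter fun y : L => i ∈ univ.filter (fun i => j i ∈ T y)) =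
          univ.filter (fun y : L => g (j i) ≤ y) := by
        refine Finset.filter_congr fun y _ => ?_
        rw [Finset.mem_filter, hTmem]
        exact ⟨fun h => h.2.2, fun h => ⟨Finset.mem_univ _, hjM i, h⟩⟩
      rw [h5]
      exact hu _ (hjM i))
  have hB := two_step (fun x y : L => x ⊓ y) T T1 (fun i x => g (j i) ≤ x)
    (fun s => univ.filter (fun i => j i ∈ s)) (1 / 2 - e - e1) hb1
    hTT1
    (fun z z' _ h => by
      ext m
      rw [hTmem, hTmem]
      refine and_congr_right fun hm => ?_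
      obtain ⟨i, hi⟩ := hjs m hm
      have h2 := h i
      rw [hi] at h2
      exact Iff.of_eq h2)
    (fun x x' y y' h h' => by
      show T1 (x ⊓ y) = T1 (x' ⊓ y')
      rw [hT1inf, hT1inf, h, h'])
    (fun x x' y y' h h' hm i hi => by
      have hm' : T (x ⊓ y) = T (x' ⊓ y') := hm
      have h5 : j i ∈ T1 y := (Finset.mem_filter.1 hi).2
      have h6 : j i ∈ T1 y' := by rw [← h']; exact h5
      have h7 : g (j i) ≤ y := (h12 _ (hjM i)).trans ((hT1mem _ _).1 h5).2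
      have h8 : g (j i) ≤ y' := (h12 _ (hjM i)).trans ((hT1mem _ _).1 h6).2
      have h9 : j i ∈ T (x ⊓ y) ↔ j i ∈ T (x' ⊓ y') := by rw [hm']
      rw [hTmem, hTmem, le_inf_iff, le_inf_iff] at h9
      exact propext ⟨fun h => (h9.1 ⟨hjM i, h, h7⟩).2.1, fun h => (h9.2 ⟨hjM i, h, h8⟩).2.1⟩)
    (fun x x' y y' h h' hm i hi => by
      have hm' : T (x ⊓ y) = T (x' ⊓ y') := hm
      have h5 : j i ∈ T1 x := (Finset.mem_filter.1 hi).2
      have h6 : j i ∈ T1 x' := by rw [← h]; exact h5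
      have h7 : g (j i) ≤ x := (h12 _ (hjM i)).trans ((hT1mem _ _).1 h5).2
      have h8 : g (j i) ≤ x' := (h12 _ (hjM i)).trans ((hT1mem _ _).1 h6).2
      have h9 : j i ∈ T (x ⊓ y) ↔ j i ∈ T (x' ⊓ y') := by rw [hm']
      rw [hTmem, hTmem, le_inf_iff, le_inf_iff] at h9
      exact propext ⟨fun h => (h9.1 ⟨hjM i, h7, h⟩).2.2, fun h => (h9.2 ⟨hjM i, h8, h⟩).2.2⟩)
    (fun i => by
      have h5 : (univ.filter fun y : L => i ∈ univ.filter (fun i => j i ∈ T1 y)) =
          univ.filter (fun y : L => g1 (j i) ≤ y) := by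
        refine Finset.filter_congr fun y _ => ?_
        rw [Finset.mem_filter, hT1mem]
        exact ⟨fun h => h.2.2, fun h => ⟨Finset.mem_univ _, hjM i, h⟩⟩
      rw [h5]
      exact hu1 _ (hjM i))
  rw [S_id] at hA
  refine Pool.Agent.H64.VC.final (fun x y : L => x ⊓ y) T T1 e e1 K K1 he he1 hb1 ?_ hB hK hK1 E hE2
  have := hA
  rw [sub_zero] at this
  exact this

open Classical in
theorem exact_breadth (b : ℕ) : ∃ N0 : ℕ, ∀ (L : Type u) [Lattice L] [BoundedOrder L] [Fintype L]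
    (M : Finset L), (∀ a : L, SupIrred a → ∃ m ∈ M, a ≤ m) →
    (∀ S ⊆ M, ∃ T ⊆ S, T.card ≤ b ∧ T.sup id = S.sup id) →
    N0 < Fintype.card L → ∃ a ∈ M, 2 * #{x : L | a ≤ x} < Fintype.card L := by
  obtain ⟨l0, hl0⟩ := Pool.Agent.H40.VC.Numbers.numbers b
  refine ⟨⌈Real.exp (max l0 1)⌉₊ + 2, ?_⟩
  intro L _ _ _ M hM hb hNL
  by_contra hcon
  push Not at hcon
  set N : ℝ := (Fintype.card L : ℝ) with hNdef
  have hN2 : 2 ≤ Fintype.card L := by omega
  have hNpos : 0 < N := by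
    rw [hNdef]; exact_mod_cast (show 0 < Fintype.card L by omega)
  have hexp : Real.exp (max l0 1) ≤ N := by
    refine (Nat.le_ceil _).trans ?_
    rw [hNdef]
    exact_mod_cast (show ⌈Real.exp (max l0 1)⌉₊ ≤ Fintype.card L by omega)
  set l : ℝ := Real.log N with hl
  have hlmax : max l0 1 ≤ l := (Real.le_log_iff_exp_le hNpos).2 hexp
  have hl1 : 1 ≤ l := (le_max_right _ _).trans hlmax
  have hlpos : 0 < l := by linarith
  set e : ℝ := 1 / l with he
  set t : ℕ := ⌈2 * l ^ 2⌉₊ + 1 with ht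
  set K : ℕ := ((t + 1) ^ b + 1) ^ b with hK
  set e1 : ℝ := 1 / (96 * ((b : ℝ) ^ 2 + 1)) with he1
  set t1 : ℕ := ⌈2 * Real.log K / e1⌉₊ + 1 with ht1
  set K1 : ℕ := ((t1 + 1) ^ b + 1) ^ b with hK1
  obtain ⟨-, hη, hη32, hnum⟩ := hl0 l ((le_max_left _ _).trans hlmax) e e1
    (e + Real.log K / (2 * l)) t t1 K K1 he ht hK he1 ht1 hK1 rfl
  have hepos : 0 < e := by rw [he]; positivity
  have he1pos : 0 < e1 := by rw [he1]; positivity
  have he1le : e1 ≤ 1 / 96 := by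
    rw [he1]
    refine one_div_le_one_div_of_le (by norm_num) ?_
    nlinarith [sq_nonneg (b : ℝ)]
  have hKone : (1 : ℝ) ≤ K := by
    exact_mod_cast (show 1 ≤ K from Nat.one_le_pow _ _ (by omega))
  have hlogK : 0 ≤ Real.log K := Real.log_nonneg hKone
  have hele : e ≤ 1 / 32 := by
    have h2 : 0 ≤ Real.log K / (2 * l) := by positivity
    linarith
  have h1 : 2 * Real.log (Fintype.card L) < e * t := by
    rw [← hNdef, ← hl]
    have h2 : 2 * l ^ 2 < t := by
      rw [ht]; push_cast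
      have := Nat.le_ceil (2 * l ^ 2)
      linarith
    rw [he, one_div, inv_mul_eq_div, lt_div_iff₀ hlpos]
    nlinarith
  have h2 : 2 * Real.log K < e1 * t1 := by
    have h3 : 2 * Real.log K / e1 < t1 := by
      rw [ht1]; push_cast
      have := Nat.le_ceil (2 * Real.log K / e1)
      linarith
    rw [div_lt_iff₀ he1pos] at h3
    linarith
  obtain ⟨g, g1, h01, h12, hc, hc1, hKc, hK1c, hF⟩ :=
    Pool.Agent.H34.VC.TwoLev.two_levels b M hb e e1 t t1 K K1 hK hK1 h1 h2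
  have hhalf : ∀ m ∈ M, N / 2 ≤ (#{y : L | m ≤ y} : ℝ) := by
    intro m hm
    have h3 := hcon m hm
    have h4 : N ≤ 2 * (#{y : L | m ≤ y} : ℝ) := by
      rw [hNdef]; exact_mod_cast h3
    linarith
  have hu : ∀ m ∈ M, (1 / 2 - e) * (Fintype.card L : ℝ) ≤ (#{y : L | g m ≤ y} : ℝ) := by
    intro m hm
    have h3 := hhalf m hm
    have h4 := hc m hm
    rw [← hNdef] at h4 ⊢
    linarith
  have hu1 : ∀ m ∈ M, (1 / 2 - e - e1) * (Fintype.card L : ℝ) ≤ (#{y : L | g1 m ≤ y} : ℝ) := by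
    intro m hm
    have h3 := hu m hm
    have h4 := hc1 m hm
    rw [← hNdef] at h3 h4 ⊢
    linarith
  obtain ⟨E, hE1, hE0, hE⟩ := core M hM g g1 h01 h12 e e1 hepos.le he1pos.le (by linarith) hu hu1 K K1
    (by exact_mod_cast hKc) (by exact_mod_cast hK1c) hF hN2 (by rw [← hNdef, ← hl]; exact hη32)
  rw [← hNdef, ← hl] at hE1 hE
  have hEpos : (0 : ℝ) < #E := by exact_mod_cast hE0
  have h5 : Real.log #E ≤ Real.log (48 * (e + Real.log K / (2 * l))) + l := by
    have h6 : (#E : ℝ) ≤ 48 * (e + Real.log K / (2 * l)) * N := by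
      refine hE1.trans ?_
      have : 0 ≤ (e + Real.log K / (2 * l)) * N := by positivity
      nlinarith
    have h7 := Real.log_le_log hEpos h6
    rw [Real.log_mul (by positivity) hNpos.ne'] at h7
    exact h7
  have h9 : Real.log (1 / (48 * (e + Real.log K / (2 * l)))) =
      - Real.log (48 * (e + Real.log K / (2 * l))) := by rw [one_div, Real.log_inv]
  rw [h9] at hnum
  have h8 : 0 ≤ 2 * e * Real.log K := by positivity
  nlinarith

end Pool.Agent.H44.VC
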