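import Pool.Agent.H44.VC.Asm
import Pool.Agent.H51.VC.Num

set_option autoImplicit false

/-!
# The explicit form
-/

namespace Pool.Agent.H44.VC

open Finset Pool.Agent.H24.Sh

open Classical in
theorem exact_explicit (b : ℕ) (L : Type*) [Lattice L] [BoundedOrder L] [Fintype L]
    (M : Finset L) (hM : ∀ a : L, SupIrred a → ∃ m ∈ M, a ≤ m)
    (hb : ∀ S ⊆ M, ∃ T ⊆ S, T.card ≤ b ∧ T.sup id = S.sup id)
    (hNL : Real.exp (Real.exp (200 * (((b : ℝ) ^ 2 + 1) * Real.log ((b : ℝ) + 2)))) ≤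
      Fintype.card L) : ∃ a ∈ M, 2 * #{x : L | a ≤ x} < Fintype.card L := by
  by_contra hcon
  push Not at hcon
  set N : ℝ := (Fintype.card L : ℝ) with hNdef
  have hNpos : 0 < N := (Real.exp_pos _).trans_le hNL
  set l : ℝ := Real.log N with hl
  have hle : Real.exp (200 * (((b : ℝ) ^ 2 + 1) * Real.log ((b : ℝ) + 2))) ≤ l :=
    (Real.le_log_iff_exp_le hNpos).2 hNL
  have hl0 := Pool.Agent.H51.VC.Num.numbers b l hle
  have hl1 : 1 ≤ l := by
    refine le_trans ?_ hle
    refine Real.one_le_exp ?_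
    have h3 : 0 ≤ Real.log ((b : ℝ) + 2) := Real.log_nonneg (by
      have : (0 : ℝ) ≤ b := Nat.cast_nonneg b
      linarith)
    positivity
  have hlpos : 0 < l := by linarith
  have hN2 : 2 ≤ Fintype.card L := by
    by_contra h3
    have h4 : Fintype.card L ≤ 1 := by omega
    have h5 : N ≤ 1 := by rw [hNdef]; exact_mod_cast h4
    have h6 := Real.log_nonpos hNpos.le h5
    linarith
  set e : ℝ := 1 / l with he
  set t : ℕ := ⌈2 * l ^ 2⌉₊ + 1 with ht
  set K : ℕ := ((t + 1) ^ b + 1) ^ b with hK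
  set e1 : ℝ := 1 / (96 * ((b : ℝ) ^ 2 + 1)) with he1
  set t1 : ℕ := ⌈2 * Real.log K / e1⌉₊ + 1 with ht1
  set K1 : ℕ := ((t1 + 1) ^ b + 1) ^ b with hK1
  obtain ⟨-, hη, hη32, hnum⟩ := hl0 e e1
    (e + Real.log K / (2 * l)) t t1 K K1 he ht hK he1 ht1 hK1 rfl
  have hepos : 0 < e := by rw [he]; positivity
  have he1pos : 0 < e1 := by rw [he1]; positivity
  have he1le : e1 ≤ 1 / 96 := by
    rw [he1]
    refine one_div_le_one_div_of_le (by norm_num) ?_
    nlinarith [sq_nonneg (b : ℝ)]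
  have hKone : (1 : ℝ) ≤ K := by
    exact_mod_cast (show 1 ≤ K from Nat.one_le_pow _ _ (by omega))
  have hlogK : 0 ≤ Real.log K := Real.log_nonneg hKone
  have hele : e ≤ 1 / 32 := by
    have h2 : 0 ≤ Real.log K / (2 * l) := by positivity
    linarith
  have h1 : 2 * Real.log (Fintype.card L) < e * t := by
    rw [← hNdef, ← hl]
    have h2 : 2 * l ^ 2 < t := by
      rw [ht]; push_cast
      have := Nat.le_ceil (2 * l ^ 2)
      linarith
    rw [he, one_div, inv_mul_eq_div, lt_div_iff₀ hlpos]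
    nlinarith
  have h2 : 2 * Real.log K < e1 * t1 := by
    have h3 : 2 * Real.log K / e1 < t1 := by
      rw [ht1]; push_cast
      have := Nat.le_ceil (2 * Real.log K / e1)
      linarith
    rw [div_lt_iff₀ he1pos] at h3
    linarith
  obtain ⟨g, g1, h01, h12, hc, hc1, hKc, hK1c, hF⟩ :=
    Pool.Agent.H34.VC.TwoLev.two_levels b M hb e e1 t t1 K K1 hK hK1 h1 h2
  have hhalf : ∀ m ∈ M, N / 2 ≤ (#{y : L | m ≤ y} : ℝ) := by
    intro m hm
    have h3 := hcon m hm
    have h4 : N ≤ 2 * (#{y : L | m ≤ y} : ℝ) := by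
      rw [hNdef]; exact_mod_cast h3
    linarith
  have hu : ∀ m ∈ M, (1 / 2 - e) * (Fintype.card L : ℝ) ≤ (#{y : L | g m ≤ y} : ℝ) := by
    intro m hm
    have h3 := hhalf m hm
    have h4 := hc m hm
    rw [← hNdef] at h4 ⊢
    linarith
  have hu1 : ∀ m ∈ M, (1 / 2 - e - e1) * (Fintype.card L : ℝ) ≤ (#{y : L | g1 m ≤ y} : ℝ) := by
    intro m hm
    have h3 := hu m hm
    have h4 := hc1 m hm
    rw [← hNdef] at h3 h4 ⊢
    linarith
  obtain ⟨E, hE1, hE0, hE⟩ := core M hM g g1 h01 h12 e e1 hepos.le he1pos.le (by linarith) hu hu1 K K1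
    (by exact_mod_cast hKc) (by exact_mod_cast hK1c) hF hN2 (by rw [← hNdef, ← hl]; exact hη32)
  rw [← hNdef, ← hl] at hE1 hE
  have hEpos : (0 : ℝ) < #E := by exact_mod_cast hE0
  have h5 : Real.log #E ≤ Real.log (48 * (e + Real.log K / (2 * l))) + l := by
    have h6 : (#E : ℝ) ≤ 48 * (e + Real.log K / (2 * l)) * N := by
      refine hE1.trans ?_
      have : 0 ≤ (e + Real.log K / (2 * l)) * N := by positivity
      nlinarith
    have h7 := Real.log_le_log hEpos h6
    rw [Real.log_mul (by positivity) hNpos.ne'] at h7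
    exact h7
  have h9 : Real.log (1 / (48 * (e + Real.log K / (2 * l)))) =
      - Real.log (48 * (e + Real.log K / (2 * l))) := by rw [one_div, Real.log_inv]
  rw [h9] at hnum
  have h8 : 0 ≤ 2 * e * Real.log K := by positivity
  nlinarith

end Pool.Agent.H44.VC
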